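import Pool.Agent.H3.ShafMain

/-! # `MP_a47518_nt`: good-reduction classes are Zariski dense in `M_d^1` -/

namespace Pool.Agent.Results.MP_a47518_nt.DenseGoodReduction

open Pool.Agent.H3.Shaf IsDedekindDomain NumberField

/-- **Main theorem.** Let `Ω` be an algebraically closed field of characteristic zero, `d ≥ 2`.
For `K = ℚ` and a finite set `S` of primes (all above `2`), the classes of maps defined over `ℚ`
with good reduction at every prime outside `S` are Zariski dense in `M_d^1`; hence
`ShafDim(M_d^1) = dim M_d^1`. -/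
theorem result (Ω : Type*) [Field Ω] [CharZero Ω] [IsAlgClosed Ω] (d : ℕ) (hd : 2 ≤ d) :
    (∃ S : Finset (HeightOneSpectrum (𝓞 ℚ)), (∀ v ∈ S, (2 : 𝓞 ℚ) ∈ v.asIdeal) ∧
      Dense (goodClasses d (algebraMap ℚ Ω) S)) ∧
    shafDim Ω d = topologicalKrullDim (Moduli Ω d) :=
  Pool.Agent.H3.ShafMain.main Ω d hd

end Pool.Agent.Results.MP_a47518_nt.DenseGoodReduction
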